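import Pool.Agent.Y489.SP.Stm
import Pool.Agent.Y438.HS.DL

/-!
# Project SP: the local degree of a composition with a map of degree one
-/

set_option autoImplicit false

open MeasureTheory Set Metric Filter Topology
open scoped ENNReal NNReal

noncomputable section

namespace Pool.Agent.Y236.SP

open Pool.Agent.Y485.HS Pool.Agent.Y489.SP

theorem lip_of_eq_id {n : ℕ} {τ : E n → E n} {R : ℝ} (hτ : ContDiff ℝ 1 τ)
    (hR : ∀ x, R ≤ ‖x‖ → τ x = x) : ∃ K : ℝ≥0, LipschitzWith K τ := by
  have hg : ContDiff ℝ 1 (fun x => τ x - x) := hτ.sub contDiff_id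
  have hc : HasCompactSupport (fun x => τ x - x) := by
    refine HasCompactSupport.intro (isCompact_closedBall (0 : E n) R) ?_
    intro x hx
    rw [mem_closedBall, dist_zero_right, not_le] at hx
    show τ x - x = 0
    rw [hR x hx.le, sub_self]
  obtain ⟨C, hC⟩ := ContDiff.lipschitzWith_of_hasCompactSupport hc hg one_ne_zero
  refine ⟨C + 1, ?_⟩
  have h := hC.add (LipschitzWith.id (α := E n))
  have e : (fun x => (τ x - x) + id x) = τ := by
    funext x
    simp
  rwa [e] at h

theorem t_COMPT : S_COMPT := by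
  intro n F0 τ0 R hF0 hτ0 hFR hτR U U' K' φ hU hU' hK' hKU hb hφ h1 h2
  obtain ⟨K, hK⟩ := lip_of_eq_id hτ0 hτR
  set ψ : E n → ℝ := U'.indicator (fun x => φ (F0 x) * (fderiv ℝ F0 x).det) with hψdef
  have hbase : Continuous (fun x => φ (F0 x) * (fderiv ℝ F0 x).det) := by
    refine (hφ.comp hF0.continuous).mul ?_
    exact ContinuousLinearMap.continuous_det.comp (hF0.continuous_fderiv one_ne_zero)
  have hz : ∀ x, x ∉ K' → ψ x = 0 := by
    intro x hx
    by_cases hxU : x ∈ U'
    · rw [hψdef, indicator_of_mem hxU]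
      by_contra hne
      exact hx (h1 x hxU (fun h0 => hne (by rw [h0, zero_mul])))
    · rw [hψdef, indicator_of_notMem hxU]
  have hψc : Continuous ψ := by
    rw [continuous_iff_continuousAt]
    intro x
    by_cases hxU : x ∈ U'
    · refine hbase.continuousAt.congr ?_
      filter_upwards [hU'.mem_nhds hxU] with y hy
      rw [hψdef, indicator_of_mem hy]
    · have hxK : x ∈ K'ᶜ := fun h => hxU (hKU h)
      refine (continuousAt_const (y := (0 : ℝ))).congr ?_
      filter_upwards [hK'.isOpen_compl.mem_nhds hxK] with y hy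
      exact (hz y hy).symm
  have hψs : HasCompactSupport ψ :=
    HasCompactSupport.intro (Metric.isCompact_of_isClosed_isBounded hK' (hb.subset hKU)) hz
  have hdl := Pool.Agent.Y438.HS.dl n τ0 K (max R 1) (lt_of_lt_of_le one_pos (le_max_right _ _))
    hK (fun x hx => hτR x ((le_max_left _ _).trans hx)) ψ hψc hψs
  have e2 : ∫ x, ψ x = ∫ x in U', φ (F0 x) * (fderiv ℝ F0 x).det := by
    rw [hψdef, integral_indicator hU'.measurableSet]
  rw [← e2, ← hdl, ← integral_indicator hU.measurableSet]
  congr 1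
  funext x
  by_cases h0 : φ (F0 (τ0 x)) = 0
  · have e3 : U.indicator (fun x => φ (F0 (τ0 x)) * (fderiv ℝ (fun z => F0 (τ0 z)) x).det) x
        = 0 := by
      by_cases hx : x ∈ U
      · rw [indicator_of_mem hx, h0, zero_mul]
      · rw [indicator_of_notMem hx]
    have e4 : ψ (τ0 x) = 0 := by
      by_cases hx : τ0 x ∈ U'
      · rw [hψdef, indicator_of_mem hx, h0, zero_mul]
      · rw [hψdef, indicator_of_notMem hx]
    rw [e3, e4, zero_mul]
  · have hiff := h2 x h0
    by_cases hx : x ∈ U
    · rw [indicator_of_mem hx, hψdef, indicator_of_mem (hiff.1 hx)]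
      have hch : fderiv ℝ (fun z => F0 (τ0 z)) x =
          (fderiv ℝ F0 (τ0 x)).comp (fderiv ℝ τ0 x) :=
        fderiv_fun_comp x (hF0.differentiable one_ne_zero _) (hτ0.differentiable one_ne_zero _)
      rw [hch]
      have hdet : ((fderiv ℝ F0 (τ0 x)).comp (fderiv ℝ τ0 x)).det =
          (fderiv ℝ F0 (τ0 x)).det * (fderiv ℝ τ0 x).det :=
        LinearMap.det_comp _ _
      rw [hdet, mul_assoc]
    · have hx' : τ0 x ∉ U' := fun h => hx (hiff.2 h)
      rw [indicator_of_notMem hx, hψdef, indicator_of_notMem hx', zero_mul]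

end Pool.Agent.Y236.SP
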